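import Mathlib
import Pool.Agent.Helper86.AP.Goals

/-!
Packet PB of project AP (MP_bec853_al): two pairings with different offsets.
-/

set_option autoImplicit false

namespace Pool.Agent.Helper90.AP

open Pool.Agent.Helper35.PP Pool.Agent.Helper35.PX Pool.Agent.Helper86.AP

variable {β : Type}

lemma get_mid (p m x : List β) (h : ℕ) (h1 : p.length ≤ h) (h2 : h < p.length + m.length) :
    (p ++ m ++ x)[h]? = m[h - p.length]? := by
  rw [List.append_assoc, List.getElem?_append_right h1, List.getElem?_append_left (by omega)]

lemma get_mid' (p m x : List β) (k : ℕ) (h2 : k < m.length) :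
    (p ++ m ++ x)[p.length + k]? = m[k]? := by
  rw [get_mid p m x _ (by omega) (by omega)]
  congr 1
  omega

lemma drop_mid (p c x : List β) (k : ℕ) (h2 : k ≤ c.length) :
    (p ++ c ++ x).drop (p.length + k) = c.drop k ++ x := by
  rw [List.append_assoc, List.drop_append, List.drop_eq_nil_of_le (by omega), List.nil_append,
    Nat.add_sub_cancel_left, List.drop_append_of_le_length h2]

lemma drop_end (p c x : List β) (k : ℕ) :
    (p ++ c ++ x).drop (p.length + c.length + k) = x.drop k := by
  rw [List.drop_append, List.drop_eq_nil_of_le (by simp), List.nil_append]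
  congr 1
  simp

theorem tPB : Pool.Agent.Helper86.AP.S_PB := by
  intro β M a d p1 c1 x1 q1 z1 p2 c2 x2 q2 z2 l hM ha1 hd1 ha2 hd2 hx1 hz2 hq hp1 hp2 hl1 hl2
  obtain ⟨q, hqd⟩ : ∃ q : ℕ, q1.length + p2.length = q2.length + p1.length + q :=
    ⟨q1.length + p2.length - (q2.length + p1.length), by omega⟩
  have hq1 : 1 ≤ q := by omega
  obtain ⟨R, hR⟩ : ∃ R, R = max l (min (p1.length + c1.length) (p2.length + c2.length - q)) :=
    ⟨_, rfl⟩
  have hlR : l ≤ R := by omega
  have hRr : R ≤ p1.length + c1.length := by omega
  have hlen1 : a.length = p1.length + c1.length + x1.length := by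
    rw [ha1]; simp only [List.length_append]
  have hlen2 : a.length = p2.length + c2.length + x2.length := by
    rw [ha2]; simp only [List.length_append]
  have hnil : ([] : List β) ∈ M := hM [] [] x1 (by simpa using hx1)
  refine ⟨R, q, hlR, by omega, hq1, ?_, ?_⟩
  · intro h h1 h2
    have e1 : h < p1.length + c1.length := by omega
    have e2 : h + q < p2.length + c2.length := by omega
    refine ⟨by omega, ?_⟩
    have f1 : a[h]? = d[q1.length + (h - p1.length)]? := by
      rw [ha1, hd1, get_mid p1 c1 x1 h (by omega) e1, get_mid' q1 c1 z1 _ (by omega)]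
    have f2 : a[h + q]? = d[q2.length + (h + q - p2.length)]? := by
      rw [ha2, hd2, get_mid p2 c2 x2 (h + q) (by omega) e2, get_mid' q2 c2 z2 _ (by omega)]
    rw [f1, f2]
    congr 1
    omega
  · obtain ⟨k, hk⟩ : ∃ k, R = p1.length + k := ⟨R - p1.length, by omega⟩
    have hkc : k ≤ c1.length := by omega
    have hdrop : a.drop R = c1.drop k ++ x1 := by
      rw [hk, ha1, drop_mid p1 c1 x1 k hkc]
    have hmem : c1.drop k ∈ M := by
      rcases Nat.lt_or_ge R (p1.length + c1.length) with hlt | hge
      · have hge2 : p2.length + c2.length ≤ R + q := by omega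
        obtain ⟨j, hj⟩ : ∃ j, q1.length + k = q2.length + c2.length + j :=
          ⟨q1.length + k - (q2.length + c2.length), by omega⟩
        have h1 : d.drop (q1.length + k) = c1.drop k ++ z1 := by
          rw [hd1, drop_mid q1 c1 z1 k hkc]
        have h2 : d.drop (q1.length + k) = z2.drop j := by
          rw [hj, hd2, drop_end]
        apply hM (z2.take j) _ z1
        rw [List.append_assoc, ← h1, h2, List.take_append_drop]
        exact hz2
      · have : c1.drop k = [] := List.drop_eq_nil_of_le (by omega)
        rw [this]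
        exact hnil
    rw [hdrop]
    exact ⟨_, hmem, x1, ⟨x1, hx1, [], rfl, (List.append_nil x1).symm⟩, rfl⟩

end Pool.Agent.Helper90.AP
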